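import Pool.Agent.Lib.MP_4c83b4_gt.Ham

set_option autoImplicit false

/-!
# The Hamiltonian is simple and admissible
-/

namespace Pool.Agent.Lib.MP_4c83b4_gt

open Set

theorem isClosed_body : IsClosed body := by
  have : body = ⋂ i, {x | ell i x ≤ 1} := by
    ext x
    simp [body]
  rw [this]
  exact isClosed_iInter fun i => isClosed_le (ell i).continuous continuous_const

theorem convex_body : Convex ℝ body := by
  intro x hx y hy a b ha hb hab i
  have h1 := hx i
  have h2 := hy i
  rw [map_add, map_smul, map_smul, smul_eq_mul, smul_eq_mul]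
  nlinarith

/-- The inequalities defining the body. -/
theorem mem_body_iff (x : Phase 2) : x ∈ body ↔
    (-(x.1 1) ≤ 4 ∧ 5 * x.1 0 - 3 * x.1 1 ≤ 17 ∧ x.1 0 + x.1 1 ≤ 5 ∧
      -3 * x.1 0 + 5 * x.1 1 ≤ 17 ∧ -(x.1 0) ≤ 4 ∧ x.1 2 ≤ 1 ∧ -(x.1 2) ≤ 1) ∧
    (x.2 0 / 4 + |x.2 2| / 32 ≤ 1 ∧ (3 * x.2 0 + 5 * x.2 1) / 17 + |x.2 2| / 32 ≤ 1 ∧
      (-(x.2 0) + x.2 1) / 5 + |x.2 2| / 32 ≤ 1 ∧
      (-5 * x.2 0 - 3 * x.2 1) / 17 + |x.2 2| / 32 ≤ 1 ∧
      -(x.2 1) / 4 + |x.2 2| / 32 ≤ 1) := by
  constructor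
  · intro h
    have h0 := h 0
    have h1 := h 1
    have h2 := h 2
    have h3 := h 3
    have h4 := h 4
    have h5 := h 5
    have h6 := h 6
    have h7 := h 7
    have h8 := h 8
    have h9 := h 9
    have h10 := h 10
    have h11 := h 11
    have h12 := h 12
    have h13 := h 13
    have h14 := h 14
    have h15 := h 15
    have h16 := h 16
    rw [ell_apply] at h0 h1 h2 h3 h4 h5 h6 h7 h8 h9 h10 h11 h12 h13 h14 h15 h16
    simp [cq, cp] at h0 h1 h2 h3 h4 h5 h6 h7 h8 h9 h10 h11 h12 h13 h14 h15 h16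
    refine ⟨⟨?_, ?_, ?_, ?_, ?_, ?_, ?_⟩, ?_, ?_, ?_, ?_, ?_⟩
    · linarith
    · linarith
    · linarith
    · linarith
    · linarith
    · linarith
    · linarith
    all_goals rcases abs_cases (x.2 2) with ⟨ha, _⟩ | ⟨ha, _⟩ <;> rw [ha] <;> linarith
  · rintro ⟨⟨h0, h1, h2, h3, h4, h5, h6⟩, h7, h8, h9, h10, h11⟩ i
    have ha := le_abs_self (x.2 2)
    have hb := neg_abs_le (x.2 2)
    rw [ell_apply]
    fin_cases i <;> simp [cq, cp] <;> linarith

theorem isCompact_body : IsCompact body := by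
  apply Metric.isCompact_of_isClosed_isBounded isClosed_body
  rw [isBounded_iff_forall_norm_le]
  refine ⟨100, fun x hx => ?_⟩
  obtain ⟨⟨h0, h1, h2, h3, h4, h5, h6⟩, h7, h8, h9, h10, h11⟩ := (mem_body_iff x).1 hx
  have ha := abs_nonneg (x.2 2)
  have hb : |x.2 2| ≤ 32 := by linarith
  have hc := abs_le.1 hb
  rw [Prod.norm_def]
  apply max_le
  · rw [EuclideanSpace.norm_eq, Real.sqrt_le_left (by norm_num)]
    rw [Fin.sum_univ_three]
    simp only [Real.norm_eq_abs, sq_abs]
    have e1 : -4 ≤ x.1 0 := by linarith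
    have e2 : x.1 0 ≤ 9 := by linarith
    have e3 : -4 ≤ x.1 1 := by linarith
    have e4 : x.1 1 ≤ 9 := by linarith
    nlinarith
  · rw [EuclideanSpace.norm_eq, Real.sqrt_le_left (by norm_num)]
    rw [Fin.sum_univ_three]
    simp only [Real.norm_eq_abs, sq_abs]
    have e1 : -9 ≤ x.2 0 := by linarith
    have e2 : x.2 0 ≤ 4 := by linarith
    have e3 : -4 ≤ x.2 1 := by linarith
    have e4 : x.2 1 ≤ 9 := by linarith
    nlinarith [hc.1, hc.2]

theorem zero_mem_hyper : (0 : Phase 2) ∈ hyper 2 := by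
  simp [hyper]

theorem sub_interior {c : ℝ} (hc : c < 1) {S : Set (Phase 2)} (hS : ∀ x ∈ S, ph x ≤ c) :
    S ⊆ interior body := by
  have hopen : IsOpen {x : Phase 2 | ∀ i, ell i x < 1} := by
    have : {x : Phase 2 | ∀ i, ell i x < 1} = ⋂ i, {x | ell i x < 1} := by
      ext x
      simp
    rw [this]
    exact isOpen_iInter_of_finite fun i => isOpen_lt (ell i).continuous continuous_const
  have h1 : {x : Phase 2 | ∀ i, ell i x < 1} ⊆ interior body :=
    interior_maximal (fun x hx i => (hx i).le) hopen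
  intro x hx
  exact h1 fun i => lt_of_le_of_lt ((ell_le_ph i x).trans (hS x hx)) hc

theorem interior_nonempty : (interior body ∩ hyper 2).Nonempty := by
  refine ⟨0, ?_, zero_mem_hyper⟩
  apply sub_interior (c := 1 / 2) (by norm_num) (S := {0})
  · intro x hx
    rw [mem_singleton_iff.1 hx, ph_zero]
    norm_num
  · exact mem_singleton _

theorem isSimple_HH : IsSimple body HH (FF (999 / 1000)) := by
  refine ⟨contDiff_HH, ?_, ?_, ?_, ?_⟩
  · refine ⟨{x | ph x ≤ 999 / 1000}, ?_, ?_, ?_, ?_⟩
    · apply isCompact_body.of_isClosed_subset (isClosed_le continuous_ph continuous_const)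
      intro x hx i
      exact (ell_le_ph i x).trans (le_trans hx (by norm_num))
    · exact sub_interior (c := 999 / 1000) (by norm_num) fun x hx => hx
    · refine ⟨0, ?_, zero_mem_hyper⟩
      show ph 0 ≤ 999 / 1000
      rw [ph_zero]
      norm_num
    · intro x hx
      have : 999 / 1000 ≤ ph x := by
        by_contra hc
        exact hx (le_of_lt (not_le.1 hc))
      exact FF_one this
  · refine ⟨{x | ph x < 1 / 1000}, isOpen_lt continuous_ph continuous_const, ?_, ?_, ?_⟩
    · exact sub_interior (c := 1 / 1000) (by norm_num) fun x hx => le_of_lt hx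
    · refine ⟨0, ?_, zero_mem_hyper⟩
      show ph 0 < 1 / 1000
      rw [ph_zero]
      norm_num
    · intro x hx
      exact FF_zero (le_of_lt hx)
  · intro x
    have h0 : FF (min (ph x) 0) = 0 := FF_zero ((min_le_right _ _).trans (by norm_num))
    rw [← h0]
    exact monotone_FF (min_le_left _ _)
  · intro x
    rcases le_total (ph x) (999 / 1000) with h | h
    · exact monotone_FF h
    · exact (FF_one h).le

/-- The coordinates of a solution. -/
theorem traj_q {γ : ℝ → Phase 2} (hγ : ∀ t, HasDerivAt γ (hamField HH (γ t)) t) (j : Fin 3)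
    (t : ℝ) : HasDerivAt (fun t => (γ t).1 j) (∑ i, gg (ph (γ t)) * wt i (γ t) * cp i j) t := by
  have h := (qc j).hasFDerivAt.comp_hasDerivAt t (hγ t)
  rw [← hamField_fst]
  exact h

theorem traj_p {γ : ℝ → Phase 2} (hγ : ∀ t, HasDerivAt γ (hamField HH (γ t)) t) (j : Fin 3)
    (t : ℝ) : HasDerivAt (fun t => (γ t).2 j) (-∑ i, gg (ph (γ t)) * wt i (γ t) * cq i j) t := by
  have h := (pc j).hasFDerivAt.comp_hasDerivAt t (hγ t)
  rw [← hamField_snd]
  exact h

/-- Conservation of energy. -/
theorem conserved {γ : ℝ → Phase 2} (hγ : ∀ t, HasDerivAt γ (hamField HH (γ t)) t) (t : ℝ) :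
    ph (γ t) = ph (γ 0) := by
  have hd : ∀ t, HasDerivAt (fun t => ph (γ t)) 0 t := by
    intro t
    have h := (hasFDerivAt_ph (γ t)).comp_hasDerivAt t (hγ t)
    refine h.congr_deriv ?_
    rw [sum_apply]
    simp only [smul_apply, smul_eq_mul, ell_apply, hamField_fst, hamField_snd]
    set x := γ t
    set g := gg (ph x)
    have e : ∀ (c : Fin 17 → Fin 3 → ℝ) (j : Fin 3), ∑ i, g * wt i x * c i j =
        g * ∑ i, wt i x * c i j := by
      intro c j
      rw [Finset.mul_sum]
      exact Finset.sum_congr rfl fun i _ => by ring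
    simp only [e]
    have e2 : ∀ (A B C A' B' C' : ℝ), ∑ i, wt i x * ((cq i 0 * A + cq i 1 * B + cq i 2 * C) +
        (cp i 0 * A' + cp i 1 * B' + cp i 2 * C')) =
        A * (∑ i, wt i x * cq i 0) + B * (∑ i, wt i x * cq i 1) + C * (∑ i, wt i x * cq i 2) +
        (A' * (∑ i, wt i x * cp i 0) + B' * (∑ i, wt i x * cp i 1) +
          C' * (∑ i, wt i x * cp i 2)) := by
      intro A B C A' B' C'
      simp only [Finset.mul_sum, ← Finset.sum_add_distrib]
      exact Finset.sum_congr rfl fun i _ => by ring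
    rw [e2]
    ring
  exact is_const_of_deriv_eq_zero (f := fun t => ph (γ t)) (fun t => (hd t).differentiableAt)
    (fun t => (hd t).deriv) t 0

theorem isAdmissible_HH : IsAdmissible body HH := by
  intro γ hγ h0
  have hcons := conserved hγ
  rcases (gg_nonneg (ph (γ 0))).eq_or_lt with hG | hG
  · left
    intro t
    have hz : ∀ t, HasDerivAt γ 0 t := by
      intro t
      refine (hγ t).congr_deriv ?_
      have h1 : ∀ j, (hamField HH (γ t)).1 j = 0 := by
        intro j
        rw [hamField_fst, hcons t, ← hG]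
        simp
      have h2 : ∀ j, (hamField HH (γ t)).2 j = 0 := by
        intro j
        rw [hamField_snd, hcons t, ← hG]
        simp
      exact Prod.ext (PiLp.ext h1) (PiLp.ext h2)
    exact is_const_of_deriv_eq_zero (f := γ) (fun t => (hz t).differentiableAt)
      (fun t => (hz t).deriv) t 0
  · right
    set s := ph (γ 0) with hs
    set G := gg s with hGd
    have hlt := gg_lt hG
    have hbound : ∀ τ ∈ {t : ℝ | 0 < t ∧ γ t ∈ hyper 2 ∧ SameLeaf (γ 0) (γ t)},
        128 * (s - 1 / 10000) / G ≤ τ := by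
      rintro τ ⟨hτ, hhyp, σ, hσ⟩
      have hc : Continuous γ := continuous_iff_continuousAt.2 fun t => (hγ t).continuousAt
      have hcore := core (fun j t => (γ t).1 j) (fun j t => (γ t).2 j)
        (fun i t => G * wt i (γ t)) G (s - 1 / 10000) τ hτ hG
        (fun i => continuous_const.mul ((continuous_wt i).comp hc))
        (fun i t => mul_nonneg hG.le (wt_pos i _).le)
        (fun t => by rw [← Finset.mul_sum, wt_sum, mul_one])
        (fun j t => by
          have := traj_q hγ j t
          rw [hcons t] at this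
          exact this)
        (fun j t => by
          have := traj_p hγ j t
          rw [hcons t] at this
          exact this)
        (fun t => by
          have h1 := energy (γ t)
          rw [hcons t] at h1
          have h2 : ∑ i, G * wt i (γ t) * ((cq i 0 * (γ t).1 0 + cq i 1 * (γ t).1 1 +
              cq i 2 * (γ t).1 2) + (cp i 0 * (γ t).2 0 + cp i 1 * (γ t).2 1 +
              cp i 2 * (γ t).2 2)) = G * ∑ i, wt i (γ t) * ell i (γ t) := by
            rw [Finset.mul_sum]
            refine Finset.sum_congr rfl fun i _ => ?_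
            rw [ell_apply]
            ring
          rw [h2]
          exact mul_le_mul_of_nonneg_left h1 hG.le)
        (by simp [hσ]) (by simp [hσ]) h0.2 hhyp
        (by simp [hσ]) (by simp [hσ])
      rw [div_le_iff₀ hG]
      linarith
    have h1 : (1 : EReal) < ((128 * (s - 1 / 10000) / G : ℝ) : EReal) := by
      have : (1 : ℝ) < 128 * (s - 1 / 10000) / G := by
        rw [lt_div_iff₀ hG]
        linarith
      exact_mod_cast this
    refine lt_of_lt_of_le h1 ?_
    exact le_iInf₂ fun τ hτ => EReal.coe_le_coe_iff.2 (hbound τ hτ)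

theorem lt_cLR : ((127 / 2 : ℝ) : EReal) < cLR body := by
  have h1 : ((127 / 2 : ℝ) : EReal) < ((FF (999 / 1000) : ℝ) : EReal) :=
    EReal.coe_lt_coe_iff.2 FF_large
  refine lt_of_lt_of_le h1 ?_
  exact le_iSup₂_of_le (FF (999 / 1000)) ⟨HH, isSimple_HH, isAdmissible_HH⟩ le_rfl

end Pool.Agent.Lib.MP_4c83b4_gt
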