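import Pool.Agent.Lib.MP_4c83b4_gt.Planar

set_option autoImplicit false

/-!
# The isoperimetric inequality along a trajectory
-/

namespace Pool.Agent.Lib.MP_4c83b4_gt

/-- The `q`-parts of the 17 linear functionals defining the body `K × T`. -/
noncomputable def cq : Fin 17 → Fin 3 → ℝ :=
  ![![0, -1/4, 0], ![5/17, -3/17, 0], ![1/5, 1/5, 0], ![-3/17, 5/17, 0], ![-1/4, 0, 0],
    ![0, 0, 1], ![0, 0, -1],
    ![0, 0, 0], ![0, 0, 0], ![0, 0, 0], ![0, 0, 0], ![0, 0, 0],
    ![0, 0, 0], ![0, 0, 0], ![0, 0, 0], ![0, 0, 0], ![0, 0, 0]]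

/-- The `p`-parts of the 17 linear functionals defining the body `K × T`. -/
noncomputable def cp : Fin 17 → Fin 3 → ℝ :=
  ![![0, 0, 0], ![0, 0, 0], ![0, 0, 0], ![0, 0, 0], ![0, 0, 0], ![0, 0, 0], ![0, 0, 0],
    ![1/4, 0, 1/32], ![3/17, 5/17, 1/32], ![-1/5, 1/5, 1/32], ![-5/17, -3/17, 1/32],
    ![0, -1/4, 1/32],
    ![1/4, 0, -1/32], ![3/17, 5/17, -1/32], ![-1/5, 1/5, -1/32], ![-5/17, -3/17, -1/32],
    ![0, -1/4, -1/32]]

/-- Indicator of the facets of the pentagon `K5`. -/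
noncomputable def ka : Fin 17 → ℝ := ![1, 1, 1, 1, 1, 0, 0, 0, 0, 0, 0, 0, 0, 0, 0, 0, 0]

/-- Indicator of the two facets `± q_3`. -/
noncomputable def nu : Fin 17 → ℝ := ![0, 0, 0, 0, 0, 1, 1, 0, 0, 0, 0, 0, 0, 0, 0, 0, 0]

/-- Indicator of the facets of `T`. -/
noncomputable def mu : Fin 17 → ℝ := ![0, 0, 0, 0, 0, 0, 0, 1, 1, 1, 1, 1, 1, 1, 1, 1, 1]

theorem ka_nu_mu (i : Fin 17) : ka i + nu i + mu i = 1 := by
  fin_cases i <;> norm_num [ka, nu, mu]

theorem exists_primitive {f : ℝ → ℝ} (hf : Continuous f) :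
    ∃ F : ℝ → ℝ, F 0 = 0 ∧ ∀ t, HasDerivAt F (f t) t :=
  ⟨fun t => ∫ s in (0 : ℝ)..t, f s, by simp, fun t => (hf.integral_hasStrictDerivAt 0 t).hasDerivAt⟩

theorem monotone_of_hasDerivAt {f f' : ℝ → ℝ} (h : ∀ t, HasDerivAt f (f' t) t)
    (h0 : ∀ t, 0 ≤ f' t) : Monotone f := by
  apply monotone_of_deriv_nonneg
  · intro t
    exact (h t).differentiableAt
  · intro t
    rw [(h t).deriv]
    exact h0 t

/-- The isoperimetric inequality for a closed characteristic chord. -/
theorem core (q p : Fin 3 → ℝ → ℝ) (W : Fin 17 → ℝ → ℝ) (G e τ : ℝ) (hτ : 0 < τ) (hG : 0 < G)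
    (hW : ∀ i, Continuous (W i)) (hW0 : ∀ i t, 0 ≤ W i t) (hsum : ∀ t, ∑ i, W i t = G)
    (hq : ∀ j t, HasDerivAt (q j) (∑ i, W i t * cp i j) t)
    (hp : ∀ j t, HasDerivAt (p j) (-∑ i, W i t * cq i j) t)
    (hen : ∀ t, G * e ≤ ∑ i, W i t * ((cq i 0 * q 0 t + cq i 1 * q 1 t + cq i 2 * q 2 t) +
      (cp i 0 * p 0 t + cp i 1 * p 1 t + cp i 2 * p 2 t)))
    (e0 : p 0 τ = p 0 0) (e1 : p 1 τ = p 1 0) (e2 : p 2 0 = 0) (e3 : p 2 τ = 0)
    (e4 : q 0 τ = q 0 0) (e5 : q 1 τ = q 1 0) : 128 * e ≤ G * τ := by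
  obtain ⟨l, l0, hl⟩ := exists_primitive (f := fun t => ∑ i, W i t * ka i) (by fun_prop)
  obtain ⟨β, β0, hβ⟩ := exists_primitive (f := fun t => ∑ i, W i t * nu i) (by fun_prop)
  obtain ⟨Λ, Λ0, hΛ⟩ := exists_primitive (f := fun t => ∑ i, W i t * mu i) (by fun_prop)
  -- total
  have htot : ∀ t, l t + β t + Λ t = G * t := by
    have hd : ∀ t, HasDerivAt (fun t => l t + β t + Λ t - G * t) 0 t := by
      intro t
      have h1 := ((hl t).add (hβ t)).add (hΛ t)
      have h2 := h1.sub ((hasDerivAt_id t).const_mul G)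
      refine h2.congr_deriv ?_
      rw [← Finset.sum_add_distrib, ← Finset.sum_add_distrib, ← hsum t, mul_one,
        ← Finset.sum_sub_distrib]
      apply Finset.sum_eq_zero
      intro i _
      have := ka_nu_mu i
      linear_combination (W i t) * this
    have hconst := is_const_of_deriv_eq_zero (f := fun t => l t + β t + Λ t - G * t)
      (fun t => (hd t).differentiableAt) (fun t => (hd t).deriv)
    intro t
    have := hconst t 0
    simp only [l0, β0, Λ0] at this
    linarith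
  -- monotone functions
  have hmono : ∀ u v : ℝ, (∀ i, 0 ≤ ka i - u * cq i 0 - v * cq i 1) →
      Monotone fun t => l t + (u * p 0 t + v * p 1 t) := by
    intro u v huv
    apply monotone_of_hasDerivAt
      (f' := fun t => ∑ i, W i t * (ka i - u * cq i 0 - v * cq i 1))
    · intro t
      have h1 := (hl t).add (((hp 0 t).const_mul u).add ((hp 1 t).const_mul v))
      refine h1.congr_deriv ?_
      rw [mul_neg, mul_neg, Finset.mul_sum, Finset.mul_sum, ← Finset.sum_neg_distrib,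
        ← Finset.sum_neg_distrib, ← Finset.sum_add_distrib, ← Finset.sum_add_distrib]
      apply Finset.sum_congr rfl
      intro i _
      ring
    · intro t
      exact Finset.sum_nonneg fun i _ => mul_nonneg (hW0 i t) (huv i)
  have hcont : ∀ j, Continuous (p j) := fun j =>
    continuous_iff_continuousAt.2 fun t => (hp j t).continuousAt
  have hclosed : Closed (p 0) (p 1) l τ := by
    refine ⟨hτ.le, hcont 0, hcont 1, e0, e1, hmono _ _ ?_, hmono _ _ ?_, hmono _ _ ?_,
      hmono _ _ ?_, hmono _ _ ?_⟩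
    all_goals intro i; fin_cases i <;> norm_num [ka, cq]
  obtain ⟨v, w, hvw⟩ := hclosed.exists_translate
  -- the third coordinate
  have hb1 : Monotone fun t => β t + p 2 t := by
    apply monotone_of_hasDerivAt (f' := fun t => ∑ i, W i t * (nu i - cq i 2))
    · intro t
      have h1 := (hβ t).add (hp 2 t)
      refine h1.congr_deriv ?_
      rw [← Finset.sum_neg_distrib, ← Finset.sum_add_distrib]
      apply Finset.sum_congr rfl
      intro i _
      ring
    · intro t
      refine Finset.sum_nonneg fun i _ => mul_nonneg (hW0 i t) ?_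
      fin_cases i <;> simp [nu, cq]
  have hb2 : Monotone fun t => β t - p 2 t := by
    apply monotone_of_hasDerivAt (f' := fun t => ∑ i, W i t * (nu i + cq i 2))
    · intro t
      have h1 := (hβ t).sub (hp 2 t)
      refine h1.congr_deriv ?_
      rw [sub_neg_eq_add, ← Finset.sum_add_distrib]
      apply Finset.sum_congr rfl
      intro i _
      ring
    · intro t
      refine Finset.sum_nonneg fun i _ => mul_nonneg (hW0 i t) ?_
      fin_cases i <;> simp [nu, cq]
  have hb : ∀ t ∈ Set.Icc 0 τ, p 2 t ≤ β τ / 2 ∧ -p 2 t ≤ β τ / 2 := by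
    intro t ht
    have h1 := hb1 ht.1
    have h2 := hb1 ht.2
    have h3 := hb2 ht.1
    have h4 := hb2 ht.2
    simp only [e2, e3, β0] at h1 h2 h3 h4
    constructor <;> linarith
  -- the action
  set L := l τ + β τ with hL
  have hfin : MonotoneOn (fun t => 2 * (L / 64) * Λ t - 2 * (v * q 0 t + w * q 1 t) -
      (p 0 t * q 0 t + p 1 t * q 1 t + p 2 t * q 2 t) - G * e * t) (Set.Icc 0 τ) := by
    have hder : ∀ t, HasDerivAt (fun t => 2 * (L / 64) * Λ t - 2 * (v * q 0 t + w * q 1 t) -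
        (p 0 t * q 0 t + p 1 t * q 1 t + p 2 t * q 2 t) - G * e * t)
        ((∑ i, W i t * (2 * (L / 64 * mu i - ((p 0 t + v) * cp i 0 + (p 1 t + w) * cp i 1 +
          p 2 t * cp i 2)))) +
        ((∑ i, W i t * ((cq i 0 * q 0 t + cq i 1 * q 1 t + cq i 2 * q 2 t) +
      (cp i 0 * p 0 t + cp i 1 * p 1 t + cp i 2 * p 2 t))) - G * e)) t := by
      intro t
      have h1 := (hΛ t).const_mul (2 * (L / 64))
      have h2 := (((hq 0 t).const_mul v).add ((hq 1 t).const_mul w)).const_mul 2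
      have h3 := (((hp 0 t).mul (hq 0 t)).add ((hp 1 t).mul (hq 1 t))).add ((hp 2 t).mul (hq 2 t))
      have h4 := (hasDerivAt_id t).const_mul (G * e)
      have h5 := ((h1.sub h2).sub h3).sub h4
      refine h5.congr_deriv ?_
      rw [mul_one, ← add_sub_assoc]
      congr 1
      simp only [neg_mul, Finset.mul_sum, Finset.sum_mul]
      simp only [← Finset.sum_neg_distrib, ← Finset.sum_add_distrib, ← Finset.sum_sub_distrib,
        Finset.mul_sum]
      apply Finset.sum_congr rfl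
      intro i _
      ring
    refine monotoneOn_of_deriv_nonneg (convex_Icc 0 τ) ?_ ?_ ?_
    · exact fun t _ => (hder t).continuousAt.continuousWithinAt
    · exact fun t _ => (hder t).differentiableAt.differentiableWithinAt
    · intro t ht
      rw [interior_Icc] at ht
      rw [(hder t).deriv]
      obtain ⟨A1, A2, A3, A4, A5⟩ := hvw t ⟨ht.1.le, ht.2.le⟩
      obtain ⟨B1, B2⟩ := hb t ⟨ht.1.le, ht.2.le⟩
      rw [l0, sub_zero] at A1 A2 A3 A4 A5
      refine add_nonneg ?_ (sub_nonneg.2 (hen t))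
      refine Finset.sum_nonneg fun i _ => mul_nonneg (hW0 i t) (mul_nonneg zero_le_two ?_)
      have : L / 64 = l τ / 64 + β τ / 64 := by rw [hL]; ring
      rw [this]
      fin_cases i <;> simp [mu, cp] <;> linarith
  have hend := hfin ⟨le_rfl, hτ.le⟩ ⟨hτ.le, le_rfl⟩ hτ.le
  simp only [e0, e1, e2, e3, e4, e5, Λ0] at hend
  have hLΛ : L + Λ τ = G * τ := by rw [hL]; exact htot τ
  have h1 : G * e * τ ≤ 2 * (L / 64) * Λ τ := by linarith
  have h2 : 2 * (L / 64) * Λ τ ≤ (G * τ) ^ 2 / 128 := by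
    rw [← hLΛ]
    nlinarith [sq_nonneg (L - Λ τ)]
  have h3 : 0 < G * τ := mul_pos hG hτ
  have h4 : (G * τ) * (128 * e) ≤ (G * τ) * (G * τ) := by nlinarith
  exact le_of_mul_le_mul_left h4 h3

end Pool.Agent.Lib.MP_4c83b4_gt
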