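import Mathlib

set_option autoImplicit false

/-!
# The coisotropic Hofer-Zehnder capacity of a convex body
-/

namespace Pool.Agent.Lib.MP_4c83b4_gt

open MeasureTheory

/-- The phase space `ℝ^{2n}`, `n = m + 1`, with points `x = (q, p)`; `volume` is Lebesgue
measure. -/
abbrev Phase (m : ℕ) : Type :=
  EuclideanSpace ℝ (Fin (m + 1)) × EuclideanSpace ℝ (Fin (m + 1))

/-- The coisotropic hyperplane `ℝ^{n,n-1} = {p_n = 0}`. -/
def hyper (m : ℕ) : Set (Phase m) := {x | x.2 (Fin.last m) = 0}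

/-- The leaf relation: `y - x` is a multiple of the `q_n`-coordinate vector. -/
def SameLeaf {m : ℕ} (x y : Phase m) : Prop :=
  ∃ s : ℝ, y = x + s • ((EuclideanSpace.single (Fin.last m) (1 : ℝ), 0) : Phase m)

/-- The Hamiltonian vector field `X_H = (∂H/∂p, -∂H/∂q)` of `H`. -/
noncomputable def hamField {m : ℕ} (H : Phase m → ℝ) (x : Phase m) : Phase m :=
  (WithLp.toLp 2 fun i => fderiv ℝ H x (0, EuclideanSpace.single i 1),
   WithLp.toLp 2 fun i => - fderiv ℝ H x (EuclideanSpace.single i 1, 0))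

/-- `H` is simple on the body `D` with maximum `c = m(H)`.  A smooth function on `D` which is
constant near the boundary of `D` is extended by this constant to the whole space. -/
structure IsSimple {m : ℕ} (D : Set (Phase m)) (H : Phase m → ℝ) (c : ℝ) : Prop where
  smooth : ContDiff ℝ (⊤ : ℕ∞) H
  eq_max : ∃ K : Set (Phase m), IsCompact K ∧ K ⊆ interior D ∧ (K ∩ hyper m).Nonempty ∧
    ∀ x, x ∉ K → H x = c
  eq_zero : ∃ U : Set (Phase m), IsOpen U ∧ U ⊆ interior D ∧ (U ∩ hyper m).Nonempty ∧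
    ∀ x ∈ U, H x = 0
  nonneg : ∀ x, 0 ≤ H x
  le_max : ∀ x, H x ≤ c

/-- The return time `T_γ = inf {t > 0 : γ(t) ∈ N, γ(t) ∼ γ(0)}` (`+∞` if there is none). -/
noncomputable def returnTime {m : ℕ} (γ : ℝ → Phase m) : EReal :=
  ⨅ t ∈ {t : ℝ | 0 < t ∧ γ t ∈ hyper m ∧ SameLeaf (γ 0) (γ t)}, (t : EReal)

/-- `H` is admissible: every solution of `γ' = X_H(γ)` starting on `N = D ∩ ℝ^{n,n-1}` is constant
or has return time greater than `1`. -/
def IsAdmissible {m : ℕ} (D : Set (Phase m)) (H : Phase m → ℝ) : Prop :=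
  ∀ γ : ℝ → Phase m, (∀ t, HasDerivAt γ (hamField H (γ t)) t) → γ 0 ∈ D ∩ hyper m →
    (∀ t, γ t = γ 0) ∨ 1 < returnTime γ

/-- The coisotropic Hofer-Zehnder capacity `c_LR(D, D ∩ ℝ^{n,n-1})`. -/
noncomputable def cLR {m : ℕ} (D : Set (Phase m)) : EReal :=
  ⨆ c ∈ {c : ℝ | ∃ H : Phase m → ℝ, IsSimple D H c ∧ IsAdmissible D H}, (c : EReal)

/-- The half `D^+ = {x ∈ D : p_n ≥ 0}`. -/
def upper {m : ℕ} (D : Set (Phase m)) : Set (Phase m) := {x ∈ D | 0 ≤ x.2 (Fin.last m)}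

/-- The half `D^- = {x ∈ D : p_n ≤ 0}`. -/
def lower {m : ℕ} (D : Set (Phase m)) : Set (Phase m) := {x ∈ D | x.2 (Fin.last m) ≤ 0}

/-- The assertion of Q1: `c_LR(D) ≤ (n! min {Vol D^+, Vol D^-})^{1/n}` for all `n ≥ 1` and all
convex bodies `D ⊆ ℝ^{2n}` whose interior meets `ℝ^{n,n-1}`. -/
def VolumeBound : Prop :=
  ∀ (m : ℕ) (D : Set (Phase m)), Convex ℝ D → IsCompact D → (interior D ∩ hyper m).Nonempty →
    cLR D ≤ ((((m + 1).factorial * min (volume (upper D)).toReal (volume (lower D)).toReal) ^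
      (1 / ((m + 1 : ℕ) : ℝ)) : ℝ) : EReal)

end Pool.Agent.Lib.MP_4c83b4_gt
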