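import Pool.Agent.Lib.MP_4c83b4_gt.Defs
import Pool.Agent.Lib.MP_4c83b4_gt.Core

set_option autoImplicit false

/-!
# The Hamiltonian
-/

namespace Pool.Agent.Lib.MP_4c83b4_gt

open Set

/-- The `q_j`-coordinate. -/
noncomputable def qc (j : Fin 3) : Phase 2 →L[ℝ] ℝ :=
  (EuclideanSpace.proj j).comp (ContinuousLinearMap.fst ℝ _ _)

/-- The `p_j`-coordinate. -/
noncomputable def pc (j : Fin 3) : Phase 2 →L[ℝ] ℝ :=
  (EuclideanSpace.proj j).comp (ContinuousLinearMap.snd ℝ _ _)

@[simp] theorem qc_apply (j : Fin 3) (x : Phase 2) : qc j x = x.1 j := rfl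

@[simp] theorem pc_apply (j : Fin 3) (x : Phase 2) : pc j x = x.2 j := rfl

/-- The 17 linear functionals whose maximum is the gauge of the body. -/
noncomputable def ell (i : Fin 17) : Phase 2 →L[ℝ] ℝ :=
  (cq i 0 • qc 0 + cq i 1 • qc 1 + cq i 2 • qc 2) +
    (cp i 0 • pc 0 + cp i 1 • pc 1 + cp i 2 • pc 2)

theorem ell_apply (i : Fin 17) (x : Phase 2) :
    ell i x = (cq i 0 * x.1 0 + cq i 1 * x.1 1 + cq i 2 * x.1 2) +
      (cp i 0 * x.2 0 + cp i 1 * x.2 1 + cp i 2 * x.2 2) := by
  simp [ell]

theorem ell_q (i : Fin 17) (j : Fin 3) :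
    ell i ((EuclideanSpace.single j (1 : ℝ), 0) : Phase 2) = cq i j := by
  rw [ell_apply]
  fin_cases j <;> simp

theorem ell_p (i : Fin 17) (j : Fin 3) :
    ell i ((0, EuclideanSpace.single j (1 : ℝ)) : Phase 2) = cp i j := by
  rw [ell_apply]
  fin_cases j <;> simp

/-- The body `K × T`. -/
def body : Set (Phase 2) := {x | ∀ i, ell i x ≤ 1}

/-- The parameter of the log-sum-exp function. -/
noncomputable def bb : ℝ := 10000 * Real.log 17

theorem bb_pos : 0 < bb := mul_pos (by norm_num) (Real.log_pos (by norm_num))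

/-- The partition function. -/
noncomputable def Z (x : Phase 2) : ℝ := ∑ i, Real.exp (bb * ell i x)

theorem Z_pos (x : Phase 2) : 0 < Z x :=
  Finset.sum_pos (fun _ _ => Real.exp_pos _) ⟨0, Finset.mem_univ _⟩

/-- The smoothed gauge. -/
noncomputable def ph (x : Phase 2) : ℝ := bb⁻¹ * Real.log (Z x)

/-- The weights. -/
noncomputable def wt (i : Fin 17) (x : Phase 2) : ℝ := Real.exp (bb * ell i x) / Z x

theorem wt_pos (i : Fin 17) (x : Phase 2) : 0 < wt i x := div_pos (Real.exp_pos _) (Z_pos x)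

theorem wt_sum (x : Phase 2) : ∑ i, wt i x = 1 := by
  unfold wt
  rw [← Finset.sum_div]
  exact div_self (Z_pos x).ne'

theorem hasFDerivAt_Z (x : Phase 2) :
    HasFDerivAt Z (∑ i, (Real.exp (bb * ell i x) * bb) • ell i) x := by
  unfold Z
  apply HasFDerivAt.fun_sum
  intro i _
  have h := (((ell i).hasFDerivAt (x := x)).const_mul bb).exp
  refine h.congr_fderiv ?_
  rw [smul_smul]

theorem contDiff_Z : ContDiff ℝ (⊤ : ℕ∞) Z := by
  unfold Z
  apply ContDiff.sum
  intro i _
  exact (contDiff_const.mul (ell i).contDiff).exp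

theorem contDiff_ph : ContDiff ℝ (⊤ : ℕ∞) ph := by
  unfold ph
  exact contDiff_const.mul (contDiff_Z.log fun x => (Z_pos x).ne')

theorem continuous_ph : Continuous ph := contDiff_ph.continuous

theorem continuous_wt (i : Fin 17) : Continuous (wt i) := by
  unfold wt
  exact (Real.continuous_exp.comp (continuous_const.mul (ell i).continuous)).div
    contDiff_Z.continuous fun x => (Z_pos x).ne'

theorem hasFDerivAt_ph (x : Phase 2) : HasFDerivAt ph (∑ i, wt i x • ell i) x := by
  unfold ph
  have h := ((hasFDerivAt_Z x).log (Z_pos x).ne').const_mul bb⁻¹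
  refine h.congr_fderiv ?_
  rw [Finset.smul_sum, Finset.smul_sum]
  apply Finset.sum_congr rfl
  intro i _
  rw [smul_smul, smul_smul]
  congr 1
  unfold wt
  have := bb_pos.ne'
  have := (Z_pos x).ne'
  field_simp

theorem ell_le_ph (i : Fin 17) (x : Phase 2) : ell i x ≤ ph x := by
  unfold ph
  rw [inv_mul_eq_div, le_div_iff₀ bb_pos, Real.le_log_iff_exp_le (Z_pos x), mul_comm]
  unfold Z
  exact Finset.single_le_sum (f := fun i => Real.exp (bb * ell i x))
    (fun i _ => (Real.exp_pos _).le) (Finset.mem_univ i)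

theorem ph_zero : ph 0 = 1 / 10000 := by
  unfold ph Z bb
  have h : Real.log 17 ≠ 0 := (Real.log_pos (by norm_num)).ne'
  simp only [map_zero, mul_zero, Real.exp_zero, Finset.sum_const, Finset.card_univ,
    Fintype.card_fin, nsmul_eq_mul, mul_one, Nat.cast_ofNat]
  field_simp

theorem energy (x : Phase 2) : ph x - 1 / 10000 ≤ ∑ i, wt i x * ell i x := by
  have hb := bb_pos
  have hZ := Z_pos x
  have key : ∀ i, wt i x * (-Real.log 17 - bb * ell i x + Real.log (Z x)) ≤ 1 / 17 - wt i x := by
    intro i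
    have hw := wt_pos i x
    have h1 : -Real.log 17 - bb * ell i x + Real.log (Z x) = Real.log (1 / (17 * wt i x)) := by
      rw [Real.log_div one_ne_zero (by positivity), Real.log_one,
        Real.log_mul (by norm_num) hw.ne']
      unfold wt
      rw [Real.log_div (Real.exp_pos _).ne' hZ.ne', Real.log_exp]
      ring
    rw [h1]
    have h2 : Real.log (1 / (17 * wt i x)) ≤ 1 / (17 * wt i x) - 1 :=
      Real.log_le_sub_one_of_pos (by positivity)
    calc wt i x * Real.log (1 / (17 * wt i x)) ≤ wt i x * (1 / (17 * wt i x) - 1) :=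
          mul_le_mul_of_nonneg_left h2 hw.le
      _ = 1 / 17 - wt i x := by
          field_simp
  have hs : ∑ i, wt i x * (-Real.log 17 - bb * ell i x + Real.log (Z x)) ≤
      ∑ i : Fin 17, (1 / 17 - wt i x) := Finset.sum_le_sum fun i _ => key i
  have h3 : ∑ i : Fin 17, (1 / 17 - wt i x) = 0 := by
    rw [Finset.sum_sub_distrib, wt_sum]
    simp
  have h4 : ∑ i, wt i x * (-Real.log 17 - bb * ell i x + Real.log (Z x)) =
      (-Real.log 17 + Real.log (Z x)) - bb * ∑ i, wt i x * ell i x := by
    have : ∀ i, wt i x * (-Real.log 17 - bb * ell i x + Real.log (Z x)) =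
        (-Real.log 17 + Real.log (Z x)) * wt i x - bb * (wt i x * ell i x) := by
      intro i
      ring
    simp only [this]
    rw [Finset.sum_sub_distrib, ← Finset.mul_sum, ← Finset.mul_sum, wt_sum, mul_one]
  rw [h3, h4] at hs
  unfold ph
  have h5 : bb⁻¹ * Real.log (Z x) - 1 / 10000 = bb⁻¹ * (-Real.log 17 + Real.log (Z x)) := by
    have h : Real.log 17 ≠ 0 := (Real.log_pos (by norm_num)).ne'
    unfold bb
    field_simp
    ring
  rw [h5, inv_mul_eq_div, div_le_iff₀ hb]
  linarith

/-! ### The profile -/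

/-- The cut-off function. -/
noncomputable def cut (s : ℝ) : ℝ :=
  Real.smoothTransition (1000 * s - 1) * Real.smoothTransition (999 - 1000 * s)

theorem contDiff_cut : ContDiff ℝ (⊤ : ℕ∞) cut := by
  unfold cut
  exact (Real.smoothTransition.contDiff.comp (by fun_prop)).mul
    (Real.smoothTransition.contDiff.comp (by fun_prop))

theorem cut_nonneg (s : ℝ) : 0 ≤ cut s :=
  mul_nonneg (Real.smoothTransition.nonneg _) (Real.smoothTransition.nonneg _)

theorem cut_le_one (s : ℝ) : cut s ≤ 1 :=
  mul_le_one₀ (Real.smoothTransition.le_one _) (Real.smoothTransition.nonneg _)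
    (Real.smoothTransition.le_one _)

theorem cut_zero_left {s : ℝ} (h : s ≤ 1 / 1000) : cut s = 0 := by
  unfold cut
  rw [Real.smoothTransition.zero_of_nonpos (by linarith), zero_mul]

theorem cut_zero_right {s : ℝ} (h : 999 / 1000 ≤ s) : cut s = 0 := by
  unfold cut
  rw [Real.smoothTransition.zero_of_nonpos (x := 999 - 1000 * s) (by linarith), mul_zero]

theorem cut_one {s : ℝ} (h : 2 / 1000 ≤ s) (h' : s ≤ 998 / 1000) : cut s = 1 := by
  unfold cut
  rw [Real.smoothTransition.one_of_one_le (by linarith),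
    Real.smoothTransition.one_of_one_le (by linarith), mul_one]

/-- The derivative of the profile. -/
noncomputable def gg (s : ℝ) : ℝ := 1279 / 10 * (s - 1 / 10000) * cut s

theorem contDiff_gg : ContDiff ℝ (⊤ : ℕ∞) gg := by
  unfold gg
  exact (contDiff_const.mul (contDiff_id.sub contDiff_const)).mul contDiff_cut

theorem gg_nonneg (s : ℝ) : 0 ≤ gg s := by
  unfold gg
  rcases le_total s (1 / 1000) with h | h
  · rw [cut_zero_left h, mul_zero]
  · exact mul_nonneg (mul_nonneg (by norm_num) (by linarith)) (cut_nonneg s)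

theorem gg_lt {s : ℝ} (h : 0 < gg s) : gg s < 128 * (s - 1 / 10000) := by
  have h1 : 1 / 1000 < s := by
    by_contra hc
    unfold gg at h
    rw [cut_zero_left (not_lt.1 hc), mul_zero] at h
    exact lt_irrefl _ h
  have h2 := cut_le_one s
  unfold gg
  have h3 : 0 < s - 1 / 10000 := by linarith
  nlinarith [cut_nonneg s]

/-- The profile. -/
noncomputable def FF (s : ℝ) : ℝ := ∫ t in (0 : ℝ)..s, gg t

theorem hasDerivAt_FF (s : ℝ) : HasDerivAt FF (gg s) s :=
  (contDiff_gg.continuous.integral_hasStrictDerivAt 0 s).hasDerivAt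

theorem contDiff_FF : ContDiff ℝ (⊤ : ℕ∞) FF := by
  rw [contDiff_infty_iff_deriv]
  refine ⟨fun s => (hasDerivAt_FF s).differentiableAt, ?_⟩
  have : deriv FF = gg := funext fun s => (hasDerivAt_FF s).deriv
  rw [this]
  exact contDiff_gg

theorem monotone_FF : Monotone FF := monotone_of_hasDerivAt hasDerivAt_FF gg_nonneg

theorem FF_zero {s : ℝ} (h : s ≤ 1 / 1000) : FF s = 0 := by
  unfold FF
  apply intervalIntegral.integral_zero_ae
  refine Filter.Eventually.of_forall fun t ht => ?_
  have : t ≤ 1 / 1000 := by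
    rcases Set.mem_uIoc.1 ht with h' | h' <;> linarith [h'.1, h'.2]
  unfold gg
  rw [cut_zero_left this, mul_zero]

theorem FF_one {s : ℝ} (h : 999 / 1000 ≤ s) : FF s = FF (999 / 1000) := by
  have h1 : FF s - FF (999 / 1000) = ∫ t in (999 / 1000 : ℝ)..s, gg t := by
    unfold FF
    rw [intervalIntegral.integral_interval_sub_left
      (contDiff_gg.continuous.intervalIntegrable _ _) (contDiff_gg.continuous.intervalIntegrable _ _)]
  have h2 : ∫ t in (999 / 1000 : ℝ)..s, gg t = 0 := by
    apply intervalIntegral.integral_zero_ae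
    refine Filter.Eventually.of_forall fun t ht => ?_
    have : 999 / 1000 ≤ t := by
      rcases Set.mem_uIoc.1 ht with h' | h' <;> linarith [h'.1, h'.2]
    unfold gg
    rw [cut_zero_right this, mul_zero]
  linarith

theorem FF_large : 127 / 2 < FF (999 / 1000) := by
  have h0 : FF (998 / 1000) ≤ FF (999 / 1000) := monotone_FF (by norm_num)
  have h1 : FF (2 / 1000) ≥ 0 := by
    rw [← FF_zero (s := 0) (by norm_num)]
    exact monotone_FF (by norm_num)
  have h2 : FF (998 / 1000) - FF (2 / 1000) = ∫ t in (2 / 1000 : ℝ)..(998 / 1000), gg t := by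
    unfold FF
    rw [intervalIntegral.integral_interval_sub_left
      (contDiff_gg.continuous.intervalIntegrable _ _) (contDiff_gg.continuous.intervalIntegrable _ _)]
  have h3 : ∫ t in (2 / 1000 : ℝ)..(998 / 1000), gg t =
      ∫ t in (2 / 1000 : ℝ)..(998 / 1000), (1279 / 10 * (t - 1 / 10000)) := by
    apply intervalIntegral.integral_congr
    intro t ht
    rw [Set.uIcc_of_le (by norm_num)] at ht
    unfold gg
    simp only
    rw [cut_one ht.1 ht.2, mul_one]
  have h4 : ∫ t in (2 / 1000 : ℝ)..(998 / 1000), (1279 / 10 * (t - 1 / 10000)) =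
      1279 / 10 * (((998 / 1000) ^ 2 - (2 / 1000) ^ 2) / 2 - 1 / 10000 * (998 / 1000 - 2 / 1000)) := by
    rw [intervalIntegral.integral_const_mul, intervalIntegral.integral_sub
      (by apply Continuous.intervalIntegrable; fun_prop) (by simp), integral_id]
    simp
    ring
  rw [h3, h4] at h2
  norm_num at h2
  linarith

/-- The Hamiltonian. -/
noncomputable def HH (x : Phase 2) : ℝ := FF (ph x)

theorem contDiff_HH : ContDiff ℝ (⊤ : ℕ∞) HH := contDiff_FF.comp contDiff_ph

theorem hasFDerivAt_HH (x : Phase 2) :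
    HasFDerivAt HH (gg (ph x) • ∑ i, wt i x • ell i) x :=
  (hasDerivAt_FF (ph x)).comp_hasFDerivAt x (hasFDerivAt_ph x)

theorem hamField_fst (x : Phase 2) (j : Fin 3) :
    (hamField HH x).1 j = ∑ i, gg (ph x) * wt i x * cp i j := by
  unfold hamField
  simp only [(hasFDerivAt_HH x).fderiv]
  simp only [smul_apply, sum_apply, ell_p, smul_eq_mul]
  rw [Finset.mul_sum]
  exact Finset.sum_congr rfl fun i _ => by ring

theorem hamField_snd (x : Phase 2) (j : Fin 3) :
    (hamField HH x).2 j = -∑ i, gg (ph x) * wt i x * cq i j := by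
  unfold hamField
  simp only [(hasFDerivAt_HH x).fderiv]
  simp only [smul_apply, sum_apply, ell_q, smul_eq_mul]
  rw [Finset.mul_sum]
  congr 1
  exact Finset.sum_congr rfl fun i _ => by ring

end Pool.Agent.Lib.MP_4c83b4_gt
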