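import Mathlib

set_option autoImplicit false

/-!
# The planar claim

A closed planar curve whose length, measured by the support function of the pentagon `K5`, is `L`
lies in a translate of `(L / 64) T5`, `T5` being `K5` rotated by a right angle.
-/

namespace Pool.Agent.Lib.MP_4c83b4_gt

/-- The length of the forward arc from time `r` to time `s` of a closed curve of period `τ`,
`l` being the length function. -/
noncomputable def arc (l : ℝ → ℝ) (τ r s : ℝ) : ℝ :=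
  if r ≤ s then l s - l r else (l τ - l 0) - (l r - l s)

theorem arc_sum (l : ℝ → ℝ) (τ : ℝ) (h0 : l 0 ≤ l τ) (r s t : ℝ) :
    arc l τ r s + arc l τ s t + arc l τ t r ≤ l τ - l 0 ∨
    arc l τ r t + arc l τ t s + arc l τ s r ≤ l τ - l 0 := by
  have key : ∀ x y : ℝ, (x ≤ y → arc l τ x y = l y - l x) ∧
      (y < x → arc l τ x y = (l τ - l 0) - (l x - l y)) := by
    intro x y
    constructor
    · intro h
      unfold arc
      rw [if_pos h]
    · intro h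
      unfold arc
      rw [if_neg (not_le.2 h)]
  rcases lt_trichotomy r s with h1 | h1 | h1 <;> rcases lt_trichotomy s t with h2 | h2 | h2 <;>
    rcases lt_trichotomy r t with h3 | h3 | h3 <;>
    first
    | (exfalso; linarith)
    | skip
  · left
    rw [(key r s).1 h1.le, (key s t).1 h2.le, (key t r).2 h3]
    linarith
  · left
    subst h2
    rw [(key r s).1 h1.le, (key s s).1 le_rfl, (key s r).2 h1]
    linarith
  · right
    rw [(key r t).1 h3.le, (key t s).1 h2.le, (key s r).2 h1]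
    linarith
  · subst h3
    right
    rw [(key r r).1 le_rfl, (key r s).1 h1.le, (key s r).2 h1]
    linarith
  · left
    rw [(key r s).1 h1.le, (key s t).2 h2, (key t r).1 h3.le]
    linarith
  · subst h1
    left
    rw [(key r r).1 le_rfl, (key r t).1 h2.le, (key t r).2 h2]
    linarith
  · subst h1
    subst h2
    left
    rw [(key r r).1 le_rfl]
    linarith
  · subst h1
    left
    rw [(key r r).1 le_rfl, (key r t).2 h2, (key t r).1 h2.le]
    linarith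
  · right
    rw [(key r t).1 h3.le, (key t s).2 h2, (key s r).1 h1.le]
    linarith
  · subst h3
    left
    rw [(key r s).2 h1, (key s r).1 h1.le, (key r r).1 le_rfl]
    linarith
  · left
    rw [(key r s).2 h1, (key s t).1 h2.le, (key t r).1 h3.le]
    linarith
  · subst h2
    left
    rw [(key r s).2 h1, (key s s).1 le_rfl, (key s r).1 h1.le]
    linarith
  · right
    rw [(key r t).2 h3, (key t s).1 h2.le, (key s r).1 h1.le]
    linarith

/-- The hypotheses on a closed planar curve `(a, b)` on `[0, τ]`: for each vertex `u` of the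
pentagon `K5` the function `l + ⟨u, (a, b)⟩` is monotone. -/
structure Closed (a b l : ℝ → ℝ) (τ : ℝ) : Prop where
  pos : 0 ≤ τ
  ca : Continuous a
  cb : Continuous b
  ea : a τ = a 0
  eb : b τ = b 0
  m1 : Monotone fun t => l t + (-4 * a t + -4 * b t)
  m2 : Monotone fun t => l t + (1 * a t + -4 * b t)
  m3 : Monotone fun t => l t + (4 * a t + 1 * b t)
  m4 : Monotone fun t => l t + (1 * a t + 4 * b t)
  m5 : Monotone fun t => l t + (-4 * a t + 1 * b t)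

variable {a b l : ℝ → ℝ} {τ : ℝ}

theorem arc_le_aux {u v : ℝ} (hm : Monotone fun t => l t + (u * a t + v * b t))
    (ea : a τ = a 0) (eb : b τ = b 0) {r s : ℝ} (hr : r ∈ Set.Icc 0 τ) (hs : s ∈ Set.Icc 0 τ) :
    u * (a r - a s) + v * (b r - b s) ≤ arc l τ r s := by
  unfold arc
  split_ifs with h
  · have := hm h
    simp only at this
    linarith
  · have h1 := hm hr.2
    have h2 := hm hs.1
    simp only at h1 h2
    rw [ea, eb] at h1
    linarith

theorem Closed.arc_le (h : Closed a b l τ) {r s : ℝ} (hr : r ∈ Set.Icc 0 τ)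
    (hs : s ∈ Set.Icc 0 τ) :
    (-4 * (a r - a s) + -4 * (b r - b s) ≤ arc l τ r s) ∧
    (1 * (a r - a s) + -4 * (b r - b s) ≤ arc l τ r s) ∧
    (4 * (a r - a s) + 1 * (b r - b s) ≤ arc l τ r s) ∧
    (1 * (a r - a s) + 4 * (b r - b s) ≤ arc l τ r s) ∧
    (-4 * (a r - a s) + 1 * (b r - b s) ≤ arc l τ r s) :=
  ⟨arc_le_aux h.m1 h.ea h.eb hr hs, arc_le_aux h.m2 h.ea h.eb hr hs,
    arc_le_aux h.m3 h.ea h.eb hr hs, arc_le_aux h.m4 h.ea h.eb hr hs,
    arc_le_aux h.m5 h.ea h.eb hr hs⟩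

theorem exists_max {f : ℝ → ℝ} (hf : Continuous f) {τ : ℝ} (hτ : 0 ≤ τ) :
    ∃ t ∈ Set.Icc 0 τ, ∀ s ∈ Set.Icc 0 τ, f s ≤ f t := by
  obtain ⟨t, ht, h⟩ := (isCompact_Icc (a := (0 : ℝ)) (b := τ)).exists_isMaxOn
    ⟨0, le_rfl, hτ⟩ hf.continuousOn
  exact ⟨t, ht, fun s hs => h hs⟩

theorem Closed.len_nonneg (h : Closed a b l τ) : l 0 ≤ l τ := by
  have := h.m1 h.pos
  simp only at this
  rw [h.ea, h.eb] at this
  linarith

/-- The planar claim. -/
theorem Closed.exists_translate (h : Closed a b l τ) :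
    ∃ v w : ℝ, ∀ t ∈ Set.Icc 0 τ,
      (a t + v) ≤ (l τ - l 0) / 64 * 4 ∧
      3 * (a t + v) + 5 * (b t + w) ≤ (l τ - l 0) / 64 * 17 ∧
      -(a t + v) + (b t + w) ≤ (l τ - l 0) / 64 * 5 ∧
      -5 * (a t + v) - 3 * (b t + w) ≤ (l τ - l 0) / 64 * 17 ∧
      -(b t + w) ≤ (l τ - l 0) / 64 * 4 := by
  have ca := h.ca
  have cb := h.cb
  obtain ⟨t1, h1, H1⟩ := exists_max (f := fun t => a t) ca h.pos
  obtain ⟨t2, h2, H2⟩ := exists_max (f := fun t => 3 * a t + 5 * b t) (by fun_prop) h.pos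
  obtain ⟨t3, h3, H3⟩ := exists_max (f := fun t => -a t + b t) (by fun_prop) h.pos
  obtain ⟨t4, h4, H4⟩ := exists_max (f := fun t => -5 * a t - 3 * b t) (by fun_prop) h.pos
  obtain ⟨t5, h5, H5⟩ := exists_max (f := fun t => -b t) (by fun_prop) h.pos
  set L := l τ - l 0 with hL
  have hlen := h.len_nonneg
  -- the five inequalities
  have I1 : 8 * (a t1) + 3 * (-a t3 + b t3) + (-5 * a t4 - 3 * b t4) ≤ L := by
    rcases arc_sum l τ hlen t1 t3 t4 with hs | hs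
    · obtain ⟨A1, A2, A3, A4, A5⟩ := h.arc_le h1 h3
      obtain ⟨B1, B2, B3, B4, B5⟩ := h.arc_le h3 h4
      obtain ⟨C1, C2, C3, C4, C5⟩ := h.arc_le h4 h1
      linarith
    · obtain ⟨A1, A2, A3, A4, A5⟩ := h.arc_le h1 h4
      obtain ⟨B1, B2, B3, B4, B5⟩ := h.arc_le h4 h3
      obtain ⟨C1, C2, C3, C4, C5⟩ := h.arc_le h3 h1
      linarith
  have I2 : 5 * (3 * a t2 + 5 * b t2) + 3 * (-5 * a t4 - 3 * b t4) + 16 * (-b t5) ≤
      L / 64 * 200 := by
    rcases arc_sum l τ hlen t2 t4 t5 with hs | hs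
    · obtain ⟨A1, A2, A3, A4, A5⟩ := h.arc_le h2 h4
      obtain ⟨B1, B2, B3, B4, B5⟩ := h.arc_le h4 h5
      obtain ⟨C1, C2, C3, C4, C5⟩ := h.arc_le h5 h2
      linarith
    · obtain ⟨A1, A2, A3, A4, A5⟩ := h.arc_le h2 h5
      obtain ⟨B1, B2, B3, B4, B5⟩ := h.arc_le h5 h4
      obtain ⟨C1, C2, C3, C4, C5⟩ := h.arc_le h4 h2
      linarith
  have I3 : (a t1) + (-a t3 + b t3) + (-b t5) ≤ L / 64 * 13 := by
    rcases arc_sum l τ hlen t1 t3 t5 with hs | hs
    · obtain ⟨A1, A2, A3, A4, A5⟩ := h.arc_le h1 h3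
      obtain ⟨B1, B2, B3, B4, B5⟩ := h.arc_le h3 h5
      obtain ⟨C1, C2, C3, C4, C5⟩ := h.arc_le h5 h1
      linarith
    · obtain ⟨A1, A2, A3, A4, A5⟩ := h.arc_le h1 h5
      obtain ⟨B1, B2, B3, B4, B5⟩ := h.arc_le h5 h3
      obtain ⟨C1, C2, C3, C4, C5⟩ := h.arc_le h3 h1
      linarith
  have I4 : 16 * (a t1) + 3 * (3 * a t2 + 5 * b t2) + 5 * (-5 * a t4 - 3 * b t4) ≤
      L / 64 * 200 := by
    rcases arc_sum l τ hlen t1 t2 t4 with hs | hs
    · obtain ⟨A1, A2, A3, A4, A5⟩ := h.arc_le h1 h2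
      obtain ⟨B1, B2, B3, B4, B5⟩ := h.arc_le h2 h4
      obtain ⟨C1, C2, C3, C4, C5⟩ := h.arc_le h4 h1
      linarith
    · obtain ⟨A1, A2, A3, A4, A5⟩ := h.arc_le h1 h4
      obtain ⟨B1, B2, B3, B4, B5⟩ := h.arc_le h4 h2
      obtain ⟨C1, C2, C3, C4, C5⟩ := h.arc_le h2 h1
      linarith
  have I5 : (3 * a t2 + 5 * b t2) + 3 * (-a t3 + b t3) + 8 * (-b t5) ≤ L := by
    rcases arc_sum l τ hlen t2 t3 t5 with hs | hs
    · obtain ⟨A1, A2, A3, A4, A5⟩ := h.arc_le h2 h3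
      obtain ⟨B1, B2, B3, B4, B5⟩ := h.arc_le h3 h5
      obtain ⟨C1, C2, C3, C4, C5⟩ := h.arc_le h5 h2
      linarith
    · obtain ⟨A1, A2, A3, A4, A5⟩ := h.arc_le h2 h5
      obtain ⟨B1, B2, B3, B4, B5⟩ := h.arc_le h5 h3
      obtain ⟨C1, C2, C3, C4, C5⟩ := h.arc_le h3 h2
      linarith
  -- the translation vector
  set b1 := L / 64 * 4 - a t1 with hb1
  set b2 := L / 64 * 17 - (3 * a t2 + 5 * b t2) with hb2
  set b3 := L / 64 * 5 - (-a t3 + b t3) with hb3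
  set b4 := L / 64 * 17 - (-5 * a t4 - 3 * b t4) with hb4
  set b5 := L / 64 * 4 - (-b t5) with hb5
  have J1 : 0 ≤ 8 * b1 + 3 * b3 + b4 := by rw [hb1, hb3, hb4]; linarith
  have J2 : 0 ≤ 5 * b2 + 3 * b4 + 16 * b5 := by rw [hb2, hb4, hb5]; linarith
  have J3 : 0 ≤ b1 + b3 + b5 := by rw [hb1, hb3, hb5]; linarith
  have J4 : 0 ≤ 16 * b1 + 3 * b2 + 5 * b4 := by rw [hb1, hb2, hb4]; linarith
  have J5 : 0 ≤ b2 + 3 * b3 + 8 * b5 := by rw [hb2, hb3, hb5]; linarith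
  obtain ⟨v, V1, V2, V3, V4⟩ : ∃ v : ℝ, v ≤ b1 ∧ v ≤ (b2 + 5 * b5) / 3 ∧
      (-b3 - b5 ≤ v) ∧ (-(5 * b4 + 3 * b2) / 16 ≤ v ∧ -(b4 + 3 * b3) / 8 ≤ v) := by
    refine ⟨max (-b3 - b5) (max (-(5 * b4 + 3 * b2) / 16) (-(b4 + 3 * b3) / 8)), ?_, ?_, ?_, ?_, ?_⟩
    · refine max_le ?_ (max_le ?_ ?_) <;> linarith
    · refine max_le ?_ (max_le ?_ ?_) <;> linarith
    · exact le_max_left _ _
    · exact (le_max_left _ _).trans (le_max_right _ _)
    · exact (le_max_right _ _).trans (le_max_right _ _)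
  obtain ⟨w, W1, W2, W3, W4⟩ : ∃ w : ℝ, -b5 ≤ w ∧ (-b4 - 5 * v) / 3 ≤ w ∧
      w ≤ (b2 - 3 * v) / 5 ∧ w ≤ b3 + v := by
    refine ⟨max (-b5) ((-b4 - 5 * v) / 3), le_max_left _ _, le_max_right _ _, ?_, ?_⟩
    · refine max_le ?_ ?_ <;> linarith
    · refine max_le ?_ ?_ <;> linarith [V4.2]
  refine ⟨v, w, fun t ht => ?_⟩
  have K1 := H1 t ht
  have K2 := H2 t ht
  have K3 := H3 t ht
  have K4 := H4 t ht
  have K5 := H5 t ht
  refine ⟨?_, ?_, ?_, ?_, ?_⟩ <;> linarith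

end Pool.Agent.Lib.MP_4c83b4_gt
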