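import Pool.Agent.Lib.MP_4c83b4_gt.Adm

set_option autoImplicit false

/-!
# The volume of the upper half of the body
-/

namespace Pool.Agent.Lib.MP_4c83b4_gt

open Set MeasureTheory

/-- The map `x ↦ (x_2, (x_0, x_1))`. -/
noncomputable def chart (x : EuclideanSpace ℝ (Fin 3)) : ℝ × (ℝ × ℝ) := (x 2, (x 0, x 1))

theorem chart_preserving : MeasurePreserving chart volume volume := by
  have m1 := PiLp.volume_preserving_ofLp (Fin 3)
  have m2 := volume_preserving_piFinSuccAbove (fun _ : Fin 3 => ℝ) 2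
  have m3 := (MeasurePreserving.id (volume : Measure ℝ)).prod (volume_preserving_finTwoArrow ℝ)
  have m := (m3.comp m2).comp m1
  exact m

/-- An upper bound of a planar area between two lines. -/
theorem area_le {a b : ℝ} (hab : a ≤ b) (l0 l1 u0 u1 : ℝ) (S : Set (ℝ × ℝ))
    (h : ∀ p ∈ S, p.1 ∈ Icc a b ∧ l0 + l1 * p.1 ≤ p.2 ∧ p.2 ≤ u0 + u1 * p.1)
    (hlu : ∀ x ∈ Icc a b, l0 + l1 * x ≤ u0 + u1 * x) :
    volume S ≤ ENNReal.ofReal ((u0 - l0) * (b - a) + (u1 - l1) * ((b ^ 2 - a ^ 2) / 2)) := by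
  set R : Set (ℝ × ℝ) := {p | p.1 ∈ Icc a b ∧ l0 + l1 * p.1 ≤ p.2 ∧ p.2 ≤ u0 + u1 * p.1} with hR
  have hRm : MeasurableSet R := by
    have : IsClosed R := by
      have e : R = (Prod.fst ⁻¹' (Icc a b)) ∩ ({p | l0 + l1 * p.1 ≤ p.2} ∩
          {p | p.2 ≤ u0 + u1 * p.1}) := by
        ext p
        simp [hR]
      rw [e]
      exact (isClosed_Icc.preimage continuous_fst).inter
        ((isClosed_le (by fun_prop) (by fun_prop)).inter (isClosed_le (by fun_prop) (by fun_prop)))
    exact this.measurableSet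
  have h1 : volume S ≤ volume R := measure_mono fun p hp => h p hp
  refine h1.trans (le_of_eq ?_)
  rw [Measure.volume_eq_prod, Measure.prod_apply hRm]
  have h2 : ∀ x, volume (Prod.mk x ⁻¹' R) =
      (Icc a b).indicator (fun x => ENNReal.ofReal ((u0 - l0) + (u1 - l1) * x)) x := by
    intro x
    by_cases hx : x ∈ Icc a b
    · rw [indicator_of_mem hx]
      have : Prod.mk x ⁻¹' R = Icc (l0 + l1 * x) (u0 + u1 * x) := by
        ext y
        simp only [hR, mem_preimage, mem_setOf_eq, mem_Icc]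
        exact ⟨fun hh => hh.2, fun hh => ⟨hx, hh⟩⟩
      rw [this, Real.volume_Icc]
      congr 1
      ring
    · rw [indicator_of_notMem hx]
      have : Prod.mk x ⁻¹' R = ∅ := by
        ext y
        simp only [hR, mem_preimage, mem_setOf_eq, mem_empty_iff_false, iff_false]
        exact fun hh => hx hh.1
      rw [this, measure_empty]
  simp only [h2]
  rw [lintegral_indicator measurableSet_Icc]
  rw [← ofReal_integral_eq_lintegral_ofReal]
  · congr 1
    rw [integral_Icc_eq_integral_Ioc, ← intervalIntegral.integral_of_le hab]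
    rw [intervalIntegral.integral_add (by simp) (by
      apply Continuous.intervalIntegrable; fun_prop), intervalIntegral.integral_const_mul,
      integral_id, intervalIntegral.integral_const]
    simp
    ring
  · have : Continuous fun x : ℝ => (u0 - l0) + (u1 - l1) * x := by fun_prop
    exact this.continuousOn.integrableOn_Icc
  · filter_upwards [ae_restrict_mem measurableSet_Icc] with x hx
    have := hlu x hx
    simp only [Pi.zero_apply]
    linarith

/-- The pentagon `K5`. -/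
def K5 : Set (ℝ × ℝ) := {p | -p.2 ≤ 4 ∧ 5 * p.1 - 3 * p.2 ≤ 17 ∧ p.1 + p.2 ≤ 5 ∧
  -3 * p.1 + 5 * p.2 ≤ 17 ∧ -p.1 ≤ 4}

theorem area_K5 : volume K5 ≤ ENNReal.ofReal (89 / 2) := by
  have h : K5 ⊆ (K5 ∩ {p | p.1 ≤ 1}) ∪ (K5 ∩ {p | 1 ≤ p.1}) := by
    intro p hp
    rcases le_total p.1 1 with h | h
    · exact Or.inl ⟨hp, h⟩
    · exact Or.inr ⟨hp, h⟩
  have h1 : volume (K5 ∩ {p | p.1 ≤ 1}) ≤ ENNReal.ofReal (65 / 2) := by
    refine (area_le (a := -4) (b := 1) (by norm_num) (-4) 0 (17 / 5) (3 / 5) _ ?_ ?_).trans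
      (le_of_eq ?_)
    · rintro p ⟨⟨h1, h2, h3, h4, h5⟩, h6⟩
      simp only [mem_setOf_eq] at h6
      refine ⟨⟨?_, ?_⟩, ?_, ?_⟩ <;> linarith
    · rintro x ⟨hx1, hx2⟩
      linarith
    · congr 1
      norm_num
  have h2 : volume (K5 ∩ {p | 1 ≤ p.1}) ≤ ENNReal.ofReal 12 := by
    refine (area_le (a := 1) (b := 4) (by norm_num) (-17 / 3) (5 / 3) 5 (-1) _ ?_ ?_).trans
      (le_of_eq ?_)
    · rintro p ⟨⟨h1, h2, h3, h4, h5⟩, h6⟩
      simp only [mem_setOf_eq] at h6
      refine ⟨⟨?_, ?_⟩, ?_, ?_⟩ <;> linarith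
    · rintro x ⟨hx1, hx2⟩
      linarith
    · congr 1
      norm_num
  calc volume K5 ≤ volume ((K5 ∩ {p | p.1 ≤ 1}) ∪ (K5 ∩ {p | 1 ≤ p.1})) := measure_mono h
    _ ≤ _ := measure_union_le _ _
    _ ≤ ENNReal.ofReal (65 / 2) + ENNReal.ofReal 12 := add_le_add h1 h2
    _ = ENNReal.ofReal (89 / 2) := by
        rw [← ENNReal.ofReal_add (by norm_num) (by norm_num)]
        norm_num

/-- The pentagon `r T5`. -/
def T5 (r : ℝ) : Set (ℝ × ℝ) := {p | p.1 / 4 ≤ r ∧ (3 * p.1 + 5 * p.2) / 17 ≤ r ∧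
  (-p.1 + p.2) / 5 ≤ r ∧ (-5 * p.1 - 3 * p.2) / 17 ≤ r ∧ -p.2 / 4 ≤ r}

theorem area_T5 {r : ℝ} (hr : 0 ≤ r) : volume (T5 r) ≤ ENNReal.ofReal (89 / 2 * r ^ 2) := by
  have h : T5 r ⊆ (T5 r ∩ {p | p.1 ≤ -r}) ∪ (T5 r ∩ {p | -r ≤ p.1}) := by
    intro p hp
    rcases le_total p.1 (-r) with h | h
    · exact Or.inl ⟨hp, h⟩
    · exact Or.inr ⟨hp, h⟩
  have h1 : volume (T5 r ∩ {p | p.1 ≤ -r}) ≤ ENNReal.ofReal (12 * r ^ 2) := by
    refine (area_le (a := -4 * r) (b := -r) (by linarith) (-17 / 3 * r) (-5 / 3) (5 * r) 1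
      _ ?_ ?_).trans (le_of_eq ?_)
    · rintro p ⟨⟨h1, h2, h3, h4, h5⟩, h6⟩
      simp only [mem_setOf_eq] at h6
      refine ⟨⟨?_, ?_⟩, ?_, ?_⟩ <;> linarith
    · rintro x ⟨hx1, hx2⟩
      linarith
    · congr 1
      ring
  have h2 : volume (T5 r ∩ {p | -r ≤ p.1}) ≤ ENNReal.ofReal (65 / 2 * r ^ 2) := by
    refine (area_le (a := -r) (b := 4 * r) (by linarith) (-4 * r) 0 (17 / 5 * r) (-3 / 5)
      _ ?_ ?_).trans (le_of_eq ?_)
    · rintro p ⟨⟨h1, h2, h3, h4, h5⟩, h6⟩
      simp only [mem_setOf_eq] at h6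
      refine ⟨⟨?_, ?_⟩, ?_, ?_⟩ <;> linarith
    · rintro x ⟨hx1, hx2⟩
      linarith
    · congr 1
      ring
  calc volume (T5 r) ≤ volume ((T5 r ∩ {p | p.1 ≤ -r}) ∪ (T5 r ∩ {p | -r ≤ p.1})) :=
        measure_mono h
    _ ≤ _ := measure_union_le _ _
    _ ≤ ENNReal.ofReal (12 * r ^ 2) + ENNReal.ofReal (65 / 2 * r ^ 2) := add_le_add h1 h2
    _ = ENNReal.ofReal (89 / 2 * r ^ 2) := by
        rw [← ENNReal.ofReal_add (by positivity) (by positivity)]
        congr 1
        ring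

/-- The `q`-part of the body in the chart. -/
def KK : Set (ℝ × (ℝ × ℝ)) := Icc (-1) 1 ×ˢ K5

/-- The `p`-part of the upper half of the body in the chart. -/
def TT : Set (ℝ × (ℝ × ℝ)) := {y | 0 ≤ y.1 ∧ y.2 ∈ T5 (1 - y.1 / 32)}

theorem vol_KK : volume KK ≤ ENNReal.ofReal 89 := by
  unfold KK
  rw [Measure.volume_eq_prod, Measure.prod_prod, Real.volume_Icc]
  calc ENNReal.ofReal (1 - -1) * volume K5 ≤ ENNReal.ofReal (1 - -1) * ENNReal.ofReal (89 / 2) :=
        mul_le_mul_right area_K5 _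
    _ = ENNReal.ofReal 89 := by
        rw [← ENNReal.ofReal_mul (by norm_num)]
        norm_num

theorem measurableSet_K5 : MeasurableSet K5 := by
  have : IsClosed K5 := by
    unfold K5
    refine IsClosed.and (isClosed_le (by fun_prop) (by fun_prop)) (IsClosed.and
      (isClosed_le (by fun_prop) (by fun_prop)) (IsClosed.and
      (isClosed_le (by fun_prop) (by fun_prop)) (IsClosed.and
      (isClosed_le (by fun_prop) (by fun_prop)) (isClosed_le (by fun_prop) (by fun_prop)))))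
  exact this.measurableSet

theorem measurableSet_KK : MeasurableSet KK := measurableSet_Icc.prod measurableSet_K5

theorem measurableSet_TT : MeasurableSet TT := by
  have : IsClosed TT := by
    unfold TT T5
    refine IsClosed.and (isClosed_le (by fun_prop) (by fun_prop)) (IsClosed.and
      (isClosed_le (by fun_prop) (by fun_prop)) (IsClosed.and
      (isClosed_le (by fun_prop) (by fun_prop)) (IsClosed.and
      (isClosed_le (by fun_prop) (by fun_prop)) (IsClosed.and
      (isClosed_le (by fun_prop) (by fun_prop)) (isClosed_le (by fun_prop) (by fun_prop))))))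
  exact this.measurableSet

theorem vol_TT : volume TT ≤ ENNReal.ofReal (1424 / 3) := by
  rw [Measure.volume_eq_prod, Measure.prod_apply measurableSet_TT]
  have h2 : ∀ b, volume (Prod.mk b ⁻¹' TT) ≤
      (Icc (0 : ℝ) 32).indicator (fun b => ENNReal.ofReal (89 / 2 * (1 - b / 32) ^ 2)) b := by
    intro b
    by_cases hb : b ∈ Icc (0 : ℝ) 32
    · rw [indicator_of_mem hb]
      have : Prod.mk b ⁻¹' TT ⊆ T5 (1 - b / 32) := fun y hy => hy.2
      exact (measure_mono this).trans (area_T5 (by linarith [hb.2]))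
    · rw [indicator_of_notMem hb]
      have : Prod.mk b ⁻¹' TT = ∅ := by
        ext y
        simp only [mem_empty_iff_false, iff_false]
        rintro ⟨h0, h1, h2, h3, h4, h5⟩
        apply hb
        refine ⟨h0, ?_⟩
        simp only at h1 h2 h3 h4 h5
        linarith
      rw [this, measure_empty]
  refine (lintegral_mono h2).trans (le_of_eq ?_)
  rw [lintegral_indicator measurableSet_Icc]
  rw [← ofReal_integral_eq_lintegral_ofReal]
  · congr 1
    rw [integral_Icc_eq_integral_Ioc, ← intervalIntegral.integral_of_le (by norm_num)]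
    have hder : ∀ b ∈ uIcc (0 : ℝ) 32, HasDerivAt
        (fun b : ℝ => -(1424 / 3) * (1 - b / 32) ^ 3) (89 / 2 * (1 - b / 32) ^ 2) b := by
      intro b _
      have h := ((((hasDerivAt_id b).div_const 32).const_sub 1).pow 3).const_mul (-(1424 / 3 : ℝ))
      refine h.congr_deriv ?_
      simp only [id]
      ring
    rw [intervalIntegral.integral_eq_sub_of_hasDerivAt hder
      (by apply Continuous.intervalIntegrable; fun_prop)]
    norm_num
  · have : Continuous fun b : ℝ => 89 / 2 * (1 - b / 32) ^ 2 := by fun_prop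
    exact this.continuousOn.integrableOn_Icc
  · filter_upwards with x
    simp only [Pi.zero_apply]
    positivity

theorem vol_upper : volume (upper body) ≤ ENNReal.ofReal (126736 / 3) := by
  have hsub : upper body ⊆ (chart ⁻¹' KK) ×ˢ (chart ⁻¹' TT) := by
    rintro x ⟨hx, hp⟩
    obtain ⟨⟨h0, h1, h2, h3, h4, h5, h6⟩, h7, h8, h9, h10, h11⟩ := (mem_body_iff x).1 hx
    have hp' : 0 ≤ x.2 2 := hp
    rw [abs_of_nonneg hp'] at h7 h8 h9 h10 h11
    refine ⟨⟨⟨?_, ?_⟩, ?_, ?_, ?_, ?_, ?_⟩, ⟨hp', ?_, ?_, ?_, ?_, ?_⟩⟩ <;>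
      simp only [chart] <;> linarith
  calc volume (upper body) ≤ volume ((chart ⁻¹' KK) ×ˢ (chart ⁻¹' TT)) := measure_mono hsub
    _ = volume (chart ⁻¹' KK) * volume (chart ⁻¹' TT) := by
        rw [Measure.volume_eq_prod, Measure.prod_prod]
    _ = volume KK * volume TT := by
        rw [chart_preserving.measure_preimage measurableSet_KK.nullMeasurableSet,
          chart_preserving.measure_preimage measurableSet_TT.nullMeasurableSet]
    _ ≤ ENNReal.ofReal 89 * ENNReal.ofReal (1424 / 3) := mul_le_mul' vol_KK vol_TT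
    _ = ENNReal.ofReal (126736 / 3) := by
        rw [← ENNReal.ofReal_mul (by norm_num)]
        norm_num

theorem bound_lt : ((Nat.factorial 3 : ℝ) * min (volume (upper body)).toReal
    (volume (lower body)).toReal) ^ (1 / 3 : ℝ) < 127 / 2 := by
  have h1 : (volume (upper body)).toReal ≤ 126736 / 3 := by
    have := ENNReal.toReal_mono ENNReal.ofReal_ne_top vol_upper
    rwa [ENNReal.toReal_ofReal (by norm_num)] at this
  have h2 : (Nat.factorial 3 : ℝ) * min (volume (upper body)).toReal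
      (volume (lower body)).toReal ≤ 253472 := by
    have h3 : min (volume (upper body)).toReal (volume (lower body)).toReal ≤ 126736 / 3 :=
      (min_le_left _ _).trans h1
    have h4 : (Nat.factorial 3 : ℝ) = 6 := by norm_num [Nat.factorial]
    rw [h4]
    linarith
  have h0 : 0 ≤ (Nat.factorial 3 : ℝ) * min (volume (upper body)).toReal
      (volume (lower body)).toReal :=
    mul_nonneg (Nat.cast_nonneg _) (le_min ENNReal.toReal_nonneg ENNReal.toReal_nonneg)
  calc _ ≤ (253472 : ℝ) ^ (1 / 3 : ℝ) := Real.rpow_le_rpow h0 h2 (by norm_num)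
    _ < ((127 / 2 : ℝ) ^ (3 : ℝ)) ^ (1 / 3 : ℝ) :=
        Real.rpow_lt_rpow (by norm_num) (by norm_num) (by norm_num)
    _ = 127 / 2 := by
        rw [← Real.rpow_mul (by norm_num)]
        norm_num

end Pool.Agent.Lib.MP_4c83b4_gt
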